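import Mathlib
import Pool.Agent.W218.PF.Eq63c

/-!
The equation `a p - b q = c` with `a` and `c` fixed: for a positive proportion of the `b ≤ D` in every
reduced class modulo `a` the number of solutions in primes `p`, `q ≤ x` is at least `θ < 1` times what the
Hardy-Littlewood conjecture predicts, already for `x` of the order `log D loglog D`.
-/

set_option autoImplicit false

open Finset

namespace Pool.Agent.Results.MP_bf63dc_nt.FixedCoefficientExact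

/-- the singular series of `a p - b q = c` -/
noncomputable def series (a b : ℕ) (c : ℤ) : ℝ :=
  ∏' p : Nat.Primes, if ((p : ℕ) : ℤ) ∣ a * b * c then (1 - 1 / ((p : ℕ) : ℝ))⁻¹
    else 1 - 1 / (((p : ℕ) : ℝ) - 1) ^ 2

/-- the number of prime solutions `(p, q)` of `a p - b q = c` with `q ≤ x` -/
noncomputable def count (a b : ℕ) (c : ℤ) (x : ℕ) : ℕ :=
  {q : ℕ | q ≤ x ∧ q.Prime ∧ ∃ p : ℕ, p.Prime ∧ (a : ℤ) * p - b * q = c}.ncard

theorem result : ∃ K : ℕ, ∀ (a : ℕ) (c : ℤ), 1 ≤ a → c ≠ 0 → Int.gcd a c = 1 →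
    ∀ c₀ θ : ℝ, 0 < c₀ → θ < 1 → ∃ κ : ℝ, 0 < κ ∧ ∃ D₀ : ℕ, ∀ D x : ℕ, D₀ ≤ D →
      c₀ * Real.log D ≤ x / Real.log x → x * Real.log D ^ K ≤ D → ∀ r : ℕ, Nat.Coprime r a →
      κ * D ≤ ({b : ℕ | 1 ≤ b ∧ b ≤ D ∧ b ≡ r [MOD a] ∧ Nat.Coprime a b ∧ Int.gcd b c = 1 ∧
        (2 : ℤ) ∣ a * b * c ∧
        θ * series a b c * (x / (a * Real.log x * Real.log (D * x))) ≤ count a b c x}.ncard : ℝ) := by
  classical
  obtain ⟨K, h⟩ := Pool.Agent.W218.PF.final63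
  refine ⟨K, fun a c ha hc hac c₀ θ hc₀ hθ => ?_⟩
  obtain ⟨κ, hκ, D0, h⟩ := h a c ha hc hac c₀ hc₀ θ hθ
  refine ⟨κ, hκ, D0, fun D x hD hcx hxD r hr => ?_⟩
  refine (h D hD x hcx hxD r hr).trans ?_
  have hcount : ∀ b : ℕ, Pool.Agent.W218.PF.sol63 a b c x ≤ count a b c x := by
    intro b
    unfold Pool.Agent.W218.PF.sol63 count
    rw [← Set.ncard_coe_finset]
    apply Set.ncard_le_ncard
    · intro q hq
      rw [mem_coe, mem_filter, mem_Icc] at hq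
      exact ⟨hq.1.2, hq.2.1, hq.2.2⟩
    · exact (Set.finite_Iic x).subset fun q hq => hq.1
  have hfin : {b : ℕ | 1 ≤ b ∧ b ≤ D ∧ b ≡ r [MOD a] ∧ Nat.Coprime a b ∧ Int.gcd b c = 1 ∧
        (2 : ℤ) ∣ a * b * c ∧
        θ * series a b c * (x / (a * Real.log x * Real.log (D * x))) ≤ count a b c x}.Finite :=
    (Set.finite_Iic D).subset fun b hb => hb.2.1
  rw [← Set.ncard_coe_finset]
  refine Nat.cast_le.2 (Set.ncard_le_ncard ?_ hfin)
  intro b hb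
  rw [mem_coe, mem_filter, mem_Icc] at hb
  obtain ⟨h1, h2, ⟨h3, h4, h5⟩, h6⟩ := hb
  exact ⟨h1.1, h1.2, h2, h3, h4, h5, h6.trans (Nat.cast_le.2 (hcount b))⟩

end Pool.Agent.Results.MP_bf63dc_nt.FixedCoefficientExact
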