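import Pool.Agent.W76.PlaneB
import Pool.Agent.H732R3.QuarterB

set_option autoImplicit false

/-!
# `a p - b q = c` with `c` fixed: a positive proportion of all pairs `(a, b)`

Let `c` be an integer prime to `6`. For a positive proportion of all pairs `(a, b)` the triple
`(a, b, c)` satisfies the hypotheses of the question and the equation `a p - b q = c` has infinitely
many solutions in primes. The proportion is at least `δ`, from the point `X₀` on, for all `c` with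
at most `r` prime factors. For an arbitrary nonzero `c` with at most `r` prime factors the same
holds with the right-hand side `t c`, where `t ≤ T` is composed of the primes `2` and `3` dividing
`c`.

The coloured Maynard-Tao theorem (`Pool.Agent.H732R3.QuarterB`) is from the starting files.
-/

open Filter

namespace Pool.Agent.Results.MP_bf63dc_nt.FixedConstantUniform

open Finset Classical in
theorem result (r : ℕ) : ∃ (T : ℕ) (δ : ℝ) (X₀ : ℕ), 0 < δ ∧ ∀ c : ℤ, c ≠ 0 →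
    c.natAbs.primeFactors.card ≤ r → ∀ X : ℕ, X₀ ≤ X →
    δ * (X : ℝ) ^ 2 ≤ (((Icc 1 X ×ˢ Icc 1 X).filter (fun z : ℕ × ℕ =>
      ∃ t : ℕ, 1 ≤ t ∧ t ≤ T ∧ (∀ l : ℕ, l.Prime → l ∣ t → l ≤ 3 ∧ (l : ℤ) ∣ c) ∧
      (IsCoprime c 6 → t = 1) ∧
      IsCoprime (z.1 : ℤ) (z.2 : ℤ) ∧ IsCoprime (z.1 : ℤ) (t * c) ∧ IsCoprime (z.2 : ℤ) (t * c) ∧
      ¬ (Odd z.1 ∧ Odd z.2 ∧ Odd ((t : ℤ) * c)) ∧
      {pq : ℕ × ℕ | pq.1.Prime ∧ pq.2.Prime ∧ (z.1 : ℤ) * pq.1 - z.2 * pq.2 = t * c}.Infinite ∧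
      ∀ η : ℝ, 0 < η → ∃ᶠ x : ℝ in atTop, x ^ (1 - η) ≤
        ({q : ℕ | (q.Prime ∧ ∃ p : ℕ, p.Prime ∧ (z.1 : ℤ) * p - z.2 * q = t * c) ∧
          (q : ℝ) ≤ x}.ncard : ℝ))).card : ℝ) := by
  obtain ⟨T, δ, X₀, hδ, H⟩ := Pool.Agent.W76.plane Pool.Agent.H732R3.BigQ.quarterB r
  refine ⟨T, δ, X₀, hδ, ?_⟩
  intro c hc hr X hX
  apply H c hc hr X hX
  rintro a b ha1 haX hb1 hbX ⟨t, h1, h2, h3, h4, h5, h6, h7, h8⟩
  rw [mem_filter, mem_product, mem_Icc, mem_Icc]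
  refine ⟨⟨⟨ha1, haX⟩, hb1, hbX⟩, t, h1, h2, h3, ?_, Nat.isCoprime_iff_coprime.2 h4, h5, h6, h7,
    ?_, h8⟩
  · intro hc6
    by_contra hne
    obtain ⟨l, hlp, hlt⟩ := Nat.exists_prime_and_dvd hne
    obtain ⟨h9, h10⟩ := h3 l hlp hlt
    have h11 := hlp.two_le
    have h12 : (l : ℤ) ∣ 6 := by
      interval_cases l
      · norm_num
      · norm_num
    have h13 := hc6.isUnit_of_dvd' h10 h12
    exact (Nat.prime_iff_prime_int.1 hlp).not_isUnit h13
  · have h9 := h8.infinite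
    apply Set.Infinite.of_image Prod.snd
    refine h9.mono ?_
    rintro q ⟨hq, p, hp, hpq⟩
    exact ⟨(p, q), ⟨hp, hq, hpq⟩, rfl⟩

end Pool.Agent.Results.MP_bf63dc_nt.FixedConstantUniform
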