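import Pool.Agent.W76.LineB
import Pool.Agent.H732R3.QuarterB

set_option autoImplicit false

/-!
# `a p - (a + h) q = c` with `c` and `h` fixed: a positive proportion of all `a`

Let `c` and `h ≥ 1` be nonzero integers prime to `6`, both divisible by `5` or both prime to `5`
(for example `c = ± 1`, `h = 1`). For a positive proportion of all positive integers `a` the triple
`(a, a + h, c)` satisfies the hypotheses of the question and the equation `a p - (a + h) q = c` has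
infinitely many solutions in primes. The proportion is at least `δ`, from the point `X₀ h` on, for
all `c` and `h` for which `c h` has at most `r` prime factors.

The coloured Maynard-Tao theorem (`Pool.Agent.H732R3.QuarterB`) is from the starting files.
-/

open Filter

namespace Pool.Agent.Results.MP_bf63dc_nt.FixedDifference

open Finset Classical in
theorem result (r : ℕ) : ∃ (δ : ℝ) (X₀ : ℕ), 0 < δ ∧ ∀ (c : ℤ) (h : ℕ), c ≠ 0 → 1 ≤ h →
    IsCoprime c 6 → IsCoprime (h : ℤ) 6 → (5 ∣ c ↔ 5 ∣ (h : ℤ)) →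
    (c.natAbs * h).primeFactors.card ≤ r → ∀ X : ℕ, X₀ * h ≤ X →
    δ * X ≤ (((Icc 1 X).filter (fun a : ℕ =>
      IsCoprime (a : ℤ) ((a + h : ℕ) : ℤ) ∧ IsCoprime (a : ℤ) c ∧ IsCoprime ((a + h : ℕ) : ℤ) c ∧
      ¬ (Odd a ∧ Odd (a + h) ∧ Odd c) ∧
      {pq : ℕ × ℕ | pq.1.Prime ∧ pq.2.Prime ∧ (a : ℤ) * pq.1 - ((a + h : ℕ) : ℤ) * pq.2 = c}.Infinite ∧
      ∀ η : ℝ, 0 < η → ∃ᶠ x : ℝ in atTop, x ^ (1 - η) ≤
        ({q : ℕ | (q.Prime ∧ ∃ p : ℕ, p.Prime ∧ (a : ℤ) * p - ((a + h : ℕ) : ℤ) * q = c) ∧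
          (q : ℝ) ≤ x}.ncard : ℝ))).card : ℝ) := by
  obtain ⟨δ, X₀, hδ, H⟩ := Pool.Agent.W76.line Pool.Agent.H732R3.BigQ.quarterB r
  refine ⟨δ, X₀, hδ, ?_⟩
  intro c h hc hh hc6 hh6 h55 hr X hX
  have hco : Nat.Coprime (c.natAbs * h) 6 := by
    have h1 : IsCoprime (c * h) (6 : ℤ) := hc6.mul_left hh6
    rw [Int.isCoprime_iff_gcd_eq_one, Int.gcd, Int.natAbs_mul, Int.natAbs_natCast] at h1
    exact h1
  have h55' : 5 ∣ c.natAbs ↔ 5 ∣ h := by
    have e1 : (5 : ℤ) ∣ c ↔ 5 ∣ c.natAbs := by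
      have := Int.natCast_dvd (m := 5) (n := c)
      simpa using this
    have e2 : (5 : ℤ) ∣ (h : ℤ) ↔ 5 ∣ h := by
      have := Int.natCast_dvd_natCast (m := 5) (n := h)
      simpa using this
    rw [← e1, ← e2]; exact h55
  apply H c h hc hh hco h55' hr X hX
  rintro a ha1 haX ⟨h1, h2, h3, h4⟩
  rw [mem_filter, mem_Icc]
  refine ⟨⟨ha1, haX⟩, Nat.isCoprime_iff_coprime.2 h1, h2, h3, ?_, ?_, h4⟩
  · rintro ⟨h5, h6, h7⟩
    have h8 : Odd h := by
      rcases Nat.even_or_odd h with h9 | h9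
      · exfalso
        have h10 : (2 : ℤ) ∣ (h : ℤ) := by exact_mod_cast even_iff_two_dvd.1 h9
        have h11 := hh6.isUnit_of_dvd' h10 (by norm_num : (2 : ℤ) ∣ 6)
        exact absurd h11 (by decide)
      · exact h9
    exact (Nat.not_even_iff_odd.2 h6) (h5.add_odd h8)
  · have h5 := h4.infinite
    apply Set.Infinite.of_image Prod.snd
    refine h5.mono ?_
    rintro q ⟨hq, p, hp, hpq⟩
    exact ⟨(p, q), ⟨hp, hq, hpq⟩, rfl⟩

end Pool.Agent.Results.MP_bf63dc_nt.FixedDifference
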