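import Pool.Agent.W25.IT.RatWin

/-!
# The iterates of `x ↦ (b x + c) / a`

For every triple `(a, b, c)` of the question one of the first 120 iterated equations
`a^j p - b^j q = c (a^(j-1) + a^(j-2) b + ... + b^(j-1))` has infinitely many solutions in primes.
The 49 linear forms theorem (`Pool.Agent.H95R2.BG.FinalL`) and the coloured Maynard-Tao theorem
(`Pool.Agent.H732R3.QuarterB`) are from the starting files.
-/

set_option autoImplicit false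

open Finset Filter

namespace Pool.Agent.Results.MP_bf63dc_nt.IteratedEquations

/-- the hypotheses of the question -/
def Adm (a b : ℕ) (c : ℤ) : Prop :=
  1 ≤ a ∧ 1 ≤ b ∧ c ≠ 0 ∧ IsCoprime (a : ℤ) b ∧ IsCoprime (a : ℤ) c ∧ IsCoprime (b : ℤ) c ∧
    ¬ (Odd a ∧ Odd b ∧ Odd c)

/-- the hypotheses and the conclusion of the question; moreover, for every `η > 0` and arbitrarily
large `x` there are at least `x ^ (1 - η)` primes `q ≤ x` such that `a p - b q = c` with `p` prime -/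
def Good (a b : ℕ) (c : ℤ) : Prop :=
  Adm a b c ∧ {pq : ℕ × ℕ | pq.1.Prime ∧ pq.2.Prime ∧ (a : ℤ) * pq.1 - b * pq.2 = c}.Infinite ∧
    ∀ η : ℝ, 0 < η → ∃ᶠ x : ℝ in atTop, x ^ (1 - η) ≤
      ({q : ℕ | (q.Prime ∧ ∃ p : ℕ, p.Prime ∧ (a : ℤ) * p - b * q = c) ∧ (q : ℝ) ≤ x}.ncard : ℝ)

/-- the right-hand side of the `j`-th iterated equation -/
def rhs (a b : ℕ) (c : ℤ) (j : ℕ) : ℤ := c * ∑ i ∈ range j, (a : ℤ) ^ i * (b : ℤ) ^ (j - 1 - i)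

theorem adm_iter {a b : ℕ} {c : ℤ} (h : Adm a b c) {j : ℕ} (hj : 1 ≤ j) :
    Adm (a ^ j) (b ^ j) (rhs a b c j) := by
  obtain ⟨ha, hb, hc, hab, hac, hbc, hpar⟩ := h
  have ha' : (1 : ℤ) ≤ a := by exact_mod_cast ha
  have hb' : (1 : ℤ) ≤ b := by exact_mod_cast hb
  obtain ⟨h1, h2⟩ := Pool.Agent.W25.IT.Rat.cj_coprime hab hac hbc hj
  refine ⟨Nat.one_le_pow _ _ ha, Nat.one_le_pow _ _ hb,
    Pool.Agent.W25.IT.Rat.cj_pos a b c ha' hb' hc hj, ?_, ?_, ?_, ?_⟩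
  · push_cast
    exact hab.pow
  · push_cast
    exact h1
  · push_cast
    exact h2
  · rintro ⟨h3, h4, h5⟩
    refine Pool.Agent.W25.IT.Rat.cj_parity (a := (a : ℤ)) (b := (b : ℤ)) (c := c) ?_ hj ⟨?_, ?_, h5⟩
    · rintro ⟨h6, h7, h8⟩
      exact hpar ⟨by exact_mod_cast h6, by exact_mod_cast h7, h8⟩
    · exact_mod_cast h3
    · exact_mod_cast h4

theorem good_iter {a b : ℕ} {c : ℤ} (h : Adm a b c) {j : ℕ} (hj : 1 ≤ j)
    (hg : Pool.Agent.W25.IT.Rat.GoodEq a b c j) : Good (a ^ j) (b ^ j) (rhs a b c j) := by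
  refine ⟨adm_iter h hj, ?_, ?_⟩
  · push_cast
    exact hg.1
  · push_cast
    exact hg.2

open Classical in
theorem result :
    (∀ (a b : ℕ) (c : ℤ), Adm a b c →
      (∃ j : ℕ, 1 ≤ j ∧ j ≤ 120 ∧ Good (a ^ j) (b ^ j) (rhs a b c j)) ∧
      (∀ E : Finset ℕ, 49 ≤ E.card →
        (∀ p : ℕ, p.Prime → 3 ≤ p → p ≤ 47 → (p : ℤ) ∣ (a : ℤ) - b → ¬ (p : ℤ) ∣ c →
          ∃ r : ℕ, ∀ e ∈ E, ¬ e ≡ r [MOD p]) →
        ∃ e ∈ E, ∃ e' ∈ E, e < e' ∧ Good (a ^ (e' - e)) (b ^ (e' - e)) (rhs a b c (e' - e))) ∧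
      (∀ ε : ℝ, 0 < ε → ∃ L : ℕ, ∀ M : ℕ, L ≤ M → ∀ u : ℕ,
        ((if 3 ∣ (a : ℤ) - b ∧ ¬ 3 ∣ c then (1 / 6 : ℝ) else if 5 ∣ (a : ℤ) - b ∧ ¬ 5 ∣ c then 1 / 5
            else 1 / 4) - ε) * (M : ℝ) ≤
          ({j : ℕ | u < j ∧ j ≤ u + M ∧ Good (a ^ j) (b ^ j) (rhs a b c j)}.ncard : ℝ))) ∧
    (∀ m : ℕ, ∃ R : ℕ, ∀ (a b : ℕ) (c : ℤ), Adm a b c →
      ∃ T : Finset ℕ, T.card = m ∧ (∀ j ∈ T, 1 ≤ j ∧ j ≤ R) ∧
        ∀ η : ℝ, 0 < η → ∃ᶠ x : ℝ in atTop, x ^ (1 - η) ≤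
          ({q : ℕ | (q.Prime ∧ ∀ j ∈ T, ∃ p : ℕ, p.Prime ∧
            (a : ℤ) ^ j * p - (b : ℤ) ^ j * q = rhs a b c j) ∧ (q : ℝ) ≤ x}.ncard : ℝ)) ∧
    (∀ A B : Fin 319 → ℤ, (∀ i, 1 ≤ A i) → (∀ i, IsCoprime (A i) (B i)) →
      Function.Injective (fun i => (A i, B i)) →
      ∃ i j, i ≠ j ∧ {pq : ℕ × ℕ | pq.1.Prime ∧ pq.2.Prime ∧
          A i * pq.1 - A j * pq.2 = A i * B j - A j * B i}.Infinite ∧
        ∀ η : ℝ, 0 < η → ∃ᶠ x : ℝ in atTop, x ^ (1 - η) ≤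
          ({n : ℕ | ((∃ q : ℕ, q.Prime ∧ A i * n + B i = q) ∧ ∃ p : ℕ, p.Prime ∧ A j * n + B j = p) ∧
            (n : ℝ) ≤ x}.ncard : ℝ)) := by
  refine ⟨?_, ?_, ?_⟩
  · intro a b c hadm
    have hadm' := hadm
    obtain ⟨ha, hb, hc, hab, hac, hbc, hpar⟩ := hadm
    have ha' : (1 : ℤ) ≤ a := by exact_mod_cast ha
    have hb' : (1 : ℤ) ≤ b := by exact_mod_cast hb
    have hpar' : ¬ (Odd (a : ℤ) ∧ Odd (b : ℤ) ∧ Odd c) := by
      rintro ⟨h6, h7, h8⟩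
      exact hpar ⟨by exact_mod_cast h6, by exact_mod_cast h7, h8⟩
    refine ⟨?_, ?_, ?_⟩
    · obtain ⟨j, h1, h2, h3⟩ := Pool.Agent.W25.IT.Rat.rat120 a b c ha' hb' hc hab hac hbc hpar'
      exact ⟨j, h1, h2, good_iter hadm' h1 h3⟩
    · intro E hE hcls
      obtain ⟨e, he, e', he', hlt, h⟩ :=
        Pool.Agent.W25.IT.Rat.rat49 a b c ha' hb' hc hab hac hbc hpar' E hE hcls
      exact ⟨e, he, e', he', hlt, good_iter hadm' (by omega) h⟩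
    · intro ε hε
      obtain ⟨L, hL⟩ := Pool.Agent.W25.IT.Rat.rat_windows a b c ha' hb' hc hab hac hbc hpar' ε hε
      refine ⟨L, fun M hM u => (hL M hM u).trans ?_⟩
      rw [Pool.Agent.W59.GB.win_eq, Nat.cast_le, ← Set.ncard_coe_finset]
      refine Set.ncard_le_ncard ?_ ((Set.finite_Ioc u (u + M)).subset ?_)
      · intro j hj
        rw [Finset.coe_filter, Set.mem_ofPred_eq, Finset.mem_Ioc] at hj
        exact ⟨hj.1.1, hj.1.2, good_iter hadm' (by omega) hj.2⟩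
      · intro j hj
        exact ⟨hj.1, hj.2.1⟩
  · intro m
    obtain ⟨R, hR⟩ := Pool.Agent.W25.IT.Rat.rat_chains m
    refine ⟨R, fun a b c hadm => ?_⟩
    obtain ⟨ha, hb, hc, hab, hac, hbc, hpar⟩ := hadm
    obtain ⟨T, h3, h4, h5⟩ := hR a b c (by exact_mod_cast ha) (by exact_mod_cast hb) hc hab hac hbc (by
      rintro ⟨h6, h7, h8⟩
      exact hpar ⟨by exact_mod_cast h6, by exact_mod_cast h7, h8⟩)
    exact ⟨T, h3, h4, h5⟩
  · intro A B hA hcop hinj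
    obtain ⟨i, j, hij, h⟩ := Pool.Agent.W25.IT.Rat.any319 A B hA
      (fun i => Int.isCoprime_iff_gcd_eq_one.1 (hcop i).symm) hinj
    refine ⟨i, j, hij, ?_, h⟩
    have h1 := h.infinite
    have hAj : A j ≠ 0 := by have := hA j; omega
    have hinj' : Set.InjOn (fun n : ℕ => ((A j * n + B j).toNat, (A i * n + B i).toNat))
        {n : ℕ | (∃ q : ℕ, q.Prime ∧ A i * n + B i = q) ∧ ∃ p : ℕ, p.Prime ∧ A j * n + B j = p} := by
      rintro n ⟨_, p, hp, hpe⟩ m ⟨_, p', hp', hpe'⟩ h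
      simp only [Prod.mk.injEq] at h
      have h2 := h.1
      rw [hpe, hpe'] at h2
      have h3 : p = p' := by simpa using h2
      rw [h3] at hpe
      have h4 : A j * n = A j * m := by linarith
      exact_mod_cast mul_left_cancel₀ hAj h4
    refine (h1.image hinj').mono ?_
    rintro _ ⟨n, ⟨⟨q, hq, hqe⟩, p, hp, hpe⟩, rfl⟩
    have h2 : (A j * n + B j).toNat = p := by rw [hpe]; simp
    have h3 : (A i * n + B i).toNat = q := by rw [hqe]; simp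
    simp only [h2, h3, Set.mem_ofPred_eq]
    refine ⟨hp, hq, ?_⟩
    rw [← hpe, ← hqe]
    ring

end Pool.Agent.Results.MP_bf63dc_nt.IteratedEquations
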